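import Pool.Agent.K1H49.PL.Stm

/-!
# Project PL (helper49, MP_0ff3ec_lc): piece STEP
-/

set_option autoImplicit false

namespace Pool.Agent.K1H92.PL

open Pool.Agent.K1H49.PL

universe u

variable {M : Type u} {X V Z : Type}

/-- the tuple `(z', W₀, W₁)` -/
def mk {n : ℕ} (z' : Z → M) (W₀ W₁ : An X Z n → M) : An X Z (n + 1) → M :=
  (Sum.elim z' (Sum.elim W₀ W₁) : Z ⊕ (An X Z n ⊕ An X Z n) → M)

lemma zr_mk {n : ℕ} (z' : Z → M) (W₀ W₁ : An X Z n → M) : zr (mk z' W₀ W₁) = z' := rfl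

lemma w0_mk {n : ℕ} (z' : Z → M) (W₀ W₁ : An X Z n → M) : w0 (mk z' W₀ W₁) = W₀ := rfl

lemma w1_mk {n : ℕ} (z' : Z → M) (W₀ W₁ : An X Z n → M) : w1 (mk z' W₀ W₁) = W₁ := rfl

lemma emb_mono {e : Nd → Nd} (he : Emb e) {μ ν : Nd} (h : μ <+: ν) : e μ <+: e ν := by
  obtain ⟨τ, rfl⟩ := h
  induction τ generalizing μ with
  | nil => rw [List.append_nil]
  | cons a τ ih =>
    have h1 : e μ <+: e (μ ++ [a]) := (List.prefix_append _ _).trans (he μ a)
    have h2 := ih (μ := μ ++ [a])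
    rw [List.append_assoc] at h2
    exact h1.trans h2

lemma emb_dir {e : Nd → Nd} (he : Emb e) {μ ν : Nd} {d : Bool} (h : (μ ++ [d]) <+: ν) :
    (e μ ++ [d]) <+: e ν := (he μ d).trans (emb_mono he h)

lemma Tc_pos (m : ℕ) : ∀ (μ π : Nd) (p : Nd × Lab), p ∈ (Tc m μ).pos π →
    ∃ ρ : Nd, p = (π ++ ρ, Lab.T (μ ++ ρ)) ∧ ρ.length ≤ m := by
  induction m with
  | zero =>
    intro μ π p hp
    simp only [Tc, Sh.pos, List.map_cons, List.map_nil, List.append_nil, List.mem_singleton] at hp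
    exact ⟨[], by simp [hp], by simp⟩
  | succ m ih =>
    intro μ π p hp
    simp only [Tc, Sh.pos, List.map_cons, List.map_nil, List.mem_append, List.mem_singleton] at hp
    rcases hp with hp | hp | hp
    · exact ⟨[], by simp [hp], by simp⟩
    · obtain ⟨ρ, h1, h2⟩ := ih _ _ _ hp
      exact ⟨false :: ρ, by simp [h1], by simpa using h2⟩
    · obtain ⟨ρ, h1, h2⟩ := ih _ _ _ hp
      exact ⟨true :: ρ, by simp [h1], by simpa using h2⟩

lemma mem_Tc (m : ℕ) : ∀ (μ π ρ : Nd), ρ.length ≤ m →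
    (π ++ ρ, Lab.T (μ ++ ρ)) ∈ (Tc m μ).pos π := by
  induction m with
  | zero =>
    intro μ π ρ hρ
    have : ρ = [] := List.eq_nil_of_length_eq_zero (by omega)
    subst this
    simp [Tc, Sh.pos]
  | succ m ih =>
    intro μ π ρ hρ
    simp only [Tc, Sh.pos, List.map_cons, List.map_nil, List.mem_append, List.mem_singleton]
    match ρ, hρ with
    | [], _ => exact Or.inl (by simp)
    | false :: ρ, hρ =>
      refine Or.inr (Or.inl ?_)
      have := ih (μ ++ [false]) (π ++ [false]) ρ (by simpa using hρ)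
      simpa using this
    | true :: ρ, hρ =>
      refine Or.inr (Or.inr ?_)
      have := ih (μ ++ [true]) (π ++ [true]) ρ (by simpa using hρ)
      simpa using this

section

variable (β : (X → M) → (V → M) → Prop) (α : (Z → M) → (V → M) → Prop)
  (γ : (X → M) → (Z → M) → Prop) (c : Nd → V ⊕ Z → M) (e : Nd → Nd) (n : ℕ)

/-- all the labels of a shape hold -/
def Hd (n : ℕ) (F : Sh Lab) (π : Nd) (w : An X Z n → M) : Prop :=
  ∀ p ∈ F.pos π, rho β α γ n p.2 w (c (e p.1))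

variable {β α γ c e n}

lemma Hd_node {F G : Sh Lab} {ls : List Lab} {π : Nd} {w : An X Z n → M} :
    Hd β α γ c e n (.node ls F G) π w ↔ (∀ a ∈ ls, rho β α γ n a w (c (e π))) ∧
      Hd β α γ c e n F (π ++ [false]) w ∧ Hd β α γ c e n G (π ++ [true]) w := by
  constructor
  · intro h
    refine ⟨fun a ha => ?_, fun p hp => ?_, fun p hp => ?_⟩
    · exact h (π, a) (by simp [Sh.pos, ha])
    · exact h p (by simp [Sh.pos, hp])
    · exact h p (by simp [Sh.pos, hp])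
  · rintro ⟨h1, h2, h3⟩ p hp
    simp only [Sh.pos, List.mem_append, List.mem_map] at hp
    rcases hp with ⟨a, ha, rfl⟩ | hp | hp
    · exact h1 a ha
    · exact h2 p hp
    · exact h3 p hp

lemma Hd_nil {π : Nd} {w : An X Z n → M} : Hd β α γ c e n .nil π w := by
  intro p hp
  simp [Sh.pos] at hp

lemma Hd_lab {k : Kd} {F : AS} {π : Nd} {w : An X Z n → M} :
    Hd β α γ c e n ((AS.lab k F).ex n) π w ↔ (∀ a ∈ k.labs, rho β α γ n a w (c (e π))) ∧
      Hd β α γ c e n (F.ex n) (π ++ [k.dir]) w := by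
  rw [AS.ex]
  cases h : k.dir
  · simp only [Bool.false_eq_true, if_false]
    rw [Hd_node]
    exact ⟨fun h => ⟨h.1, h.2.1⟩, fun h => ⟨h.1, h.2, Hd_nil⟩⟩
  · simp only [if_true]
    rw [Hd_node]
    exact ⟨fun h => ⟨h.1, h.2.2⟩, fun h => ⟨h.1, Hd_nil, h.2⟩⟩

lemma Hd_split {F G : AS} {π : Nd} {w : An X Z n → M} :
    Hd β α γ c e n ((AS.split F G).ex n) π w ↔
      Hd β α γ c e n (F.ex n) (π ++ [false]) w ∧ Hd β α γ c e n (G.ex n) (π ++ [true]) w := by
  rw [AS.ex, Hd_node]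
  simp

/-- the labels `P` and `R` at the next level -/
lemma rho_P {z' : Z → M} {W₀ W₁ : An X Z n → M} {v : V ⊕ Z → M}
    (h0 : rho β α γ n .P W₀ v) (h1 : rho β α γ n .P W₁ v) :
    rho β α γ (n + 1) .P (mk z' W₀ W₁) v := by
  rw [rho] at h0 h1 ⊢
  exact ⟨h0, h1⟩

lemma rho_R {z' : Z → M} {W₀ W₁ : An X Z n → M} {v : V ⊕ Z → M}
    (h0 : rho β α γ n .R W₀ v) (h1 : rho β α γ n .R W₁ v) :
    rho β α γ (n + 1) .R (mk z' W₀ W₁) v := by
  rw [rho] at h0 h1 ⊢
  exact ⟨h0, h1⟩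

lemma rho_Q {z' : Z → M} {W₀ W₁ : An X Z n → M} {v : V ⊕ Z → M}
    (h0 : rho β α γ n .Q W₀ v) (h1 : rho β α γ n .Q W₁ v) (h : α z' (v ∘ Sum.inl)) :
    rho β α γ (n + 1) .Q (mk z' W₀ W₁) v := by
  rw [rho] at h0 h1 ⊢
  exact ⟨h, h0, h1⟩

/-- the part without `q` -/
lemma partA {z' : Z → M} {W₀ W₁ : An X Z n → M} : ∀ (E : AS) (π : Nd), E.noQ →
    Hd β α γ c e n (E.tr0.ex n) π W₀ → Hd β α γ c e n (E.tr1.ex n) π W₁ →
    Hd β α γ c e (n + 1) (E.ex (n + 1)) π (mk z' W₀ W₁) := by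
  intro E
  induction E with
  | nil => intro π _ _ _; exact Hd_nil
  | lab k F ih =>
    intro π hq h0 h1
    rw [AS.tr0, Hd_lab] at h0
    rw [AS.tr1, Hd_lab] at h1
    rw [Hd_lab]
    refine ⟨?_, ih _ hq.2.2 h0.2 h1.2⟩
    intro a ha
    have e0 := h0.1 a ha
    have e1 := h1.1 a ha
    cases k with
    | q => exact absurd rfl hq.1
    | qr => exact absurd rfl hq.2.1
    | p =>
      simp only [Kd.labs, List.mem_singleton] at ha
      subst ha
      exact rho_P e0 e1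
    | pr =>
      simp only [Kd.labs, List.mem_cons, List.not_mem_nil, or_false] at ha
      rcases ha with rfl | rfl
      · exact rho_P e0 e1
      · exact rho_R e0 e1
    | rl =>
      simp only [Kd.labs, List.mem_singleton] at ha
      subst ha
      exact rho_R e0 e1
    | rr =>
      simp only [Kd.labs, List.mem_singleton] at ha
      subst ha
      exact rho_R e0 e1
  | split F G ihF ihG =>
    intro π hq h0 h1
    rw [AS.tr0, Hd_split] at h0
    rw [AS.tr1, Hd_split] at h1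
    rw [Hd_split]
    exact ⟨ihF _ hq.1 h0.1 h1.1, ihG _ hq.2 h0.2 h1.2⟩
  | tt =>
    intro π _ h0 h1
    rw [AS.tr0, Hd_lab] at h0
    rw [AS.tr1, Hd_lab] at h1
    obtain ⟨h0l, h0F⟩ := h0
    obtain ⟨h1l, h1F⟩ := h1
    show Hd β α γ c e (n + 1) (Tc (n + 1) []) π (mk z' W₀ W₁)
    rw [Tc, Hd_node]
    refine ⟨?_, ?_, ?_⟩
    · intro a ha
      rw [List.mem_singleton] at ha
      subst ha
      have q0 := h0l .Q (by simp [Kd.labs])
      have r0 := h0l .R (by simp [Kd.labs])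
      have p1 := h1l .P (by simp [Kd.labs])
      have r1 := h1l .R (by simp [Kd.labs])
      rw [rho.eq_1] at q0
      rw [rho.eq_3] at r0
      rw [rho.eq_2] at p1
      rw [rho.eq_3] at r1
      rw [rho.eq_6]
      exact ⟨q0, r0, p1, r1⟩
    · intro p hp
      obtain ⟨ρ, rfl, hρ⟩ := Tc_pos n _ _ _ hp
      have h2 := h0F _ (mem_Tc n [] (π ++ [false]) ρ hρ)
      show rho β α γ (n + 1) (.T (false :: ρ)) (mk z' W₀ W₁) _
      rw [rho]
      exact h2
    · intro p hp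
      obtain ⟨ρ, rfl, hρ⟩ := Tc_pos n _ _ _ hp
      have h2 := h1F _ (mem_Tc n [] (π ++ [true]) ρ hρ)
      show rho β α γ (n + 1) (.T (true :: ρ)) (mk z' W₀ W₁) _
      rw [rho]
      exact h2
  | s => intro π hq; exact absurd hq id

lemma partB (hα : ∀ μ η : Nd, (μ ++ [false]) <+: η → α (c η ∘ Sum.inr) (c μ ∘ Sum.inl))
    (he : Emb e) {W₀ W₁ : An X Z n → M} : ∀ (E : AS) (π : Nd), E.OkS →
    Hd β α γ c e n (E.tr0.ex n) π W₀ → Hd β α γ c e n (E.tr1.ex n) π W₁ →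
    ∃ ps : Nd, π <+: ps ∧ rho β α γ n .R W₀ (c (e ps)) ∧ rho β α γ n .R W₁ (c (e ps)) ∧
      Hd β α γ c e (n + 1) (E.ex (n + 1)) π (mk (c (e ps) ∘ Sum.inr) W₀ W₁) := by
  intro E
  induction E with
  | nil => intro π h; exact absurd h id
  | lab k F ih =>
    intro π hq h0 h1
    rw [AS.tr0, Hd_lab] at h0
    rw [AS.tr1, Hd_lab] at h1
    obtain ⟨ps, hps, hR0, hR1, hF⟩ := ih _ hq h0.2 h1.2
    refine ⟨ps, (List.prefix_append _ _).trans hps, hR0, hR1, ?_⟩
    rw [Hd_lab]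
    refine ⟨?_, hF⟩
    intro a ha
    have e0 := h0.1 a ha
    have e1 := h1.1 a ha
    cases k with
    | q =>
      simp only [Kd.labs, List.mem_singleton] at ha
      subst ha
      exact rho_Q e0 e1 (hα _ _ (emb_dir he hps))
    | qr =>
      simp only [Kd.labs, List.mem_cons, List.not_mem_nil, or_false] at ha
      rcases ha with rfl | rfl
      · exact rho_Q e0 e1 (hα _ _ (emb_dir he hps))
      · exact rho_R e0 e1
    | p =>
      simp only [Kd.labs, List.mem_singleton] at ha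
      subst ha
      exact rho_P e0 e1
    | pr =>
      simp only [Kd.labs, List.mem_cons, List.not_mem_nil, or_false] at ha
      rcases ha with rfl | rfl
      · exact rho_P e0 e1
      · exact rho_R e0 e1
    | rl =>
      simp only [Kd.labs, List.mem_singleton] at ha
      subst ha
      exact rho_R e0 e1
    | rr =>
      simp only [Kd.labs, List.mem_singleton] at ha
      subst ha
      exact rho_R e0 e1
  | split F G ihF ihG =>
    intro π hq h0 h1
    rw [AS.tr0, Hd_split] at h0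
    rw [AS.tr1, Hd_split] at h1
    rcases hq with ⟨hF, hG⟩ | ⟨hF, hG⟩
    · obtain ⟨ps, hps, hR0, hR1, h2⟩ := ihF _ hF h0.1 h1.1
      refine ⟨ps, (List.prefix_append _ _).trans hps, hR0, hR1, ?_⟩
      rw [Hd_split]
      exact ⟨h2, partA G _ hG h0.2 h1.2⟩
    · obtain ⟨ps, hps, hR0, hR1, h2⟩ := ihG _ hG h0.2 h1.2
      refine ⟨ps, (List.prefix_append _ _).trans hps, hR0, hR1, ?_⟩
      rw [Hd_split]
      exact ⟨partA F _ hF h0.1 h1.1, h2⟩
  | tt => intro π h; exact absurd h id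
  | s =>
    intro π _ h0 h1
    rw [AS.tr0, Hd_lab] at h0
    rw [AS.tr1, Hd_lab] at h1
    refine ⟨π, List.prefix_rfl, h0.1 .R (by simp [Kd.labs]), h1.1 .R (by simp [Kd.labs]), ?_⟩
    rw [AS.ex, Hd_node]
    refine ⟨?_, Hd_nil, Hd_nil⟩
    intro a ha
    rw [List.mem_singleton] at ha
    subst ha
    rw [rho]
    trivial

end

theorem t_STEP : S_STEP.{u} := by
  intro M X V Z β α γ c hTC n E hE e he h0 h1
  obtain ⟨W₀, hr0, hW0⟩ := h0
  obtain ⟨W₁, hr1, hW1⟩ := h1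
  obtain ⟨ps, -, hR0, hR1, h⟩ := partB (β := β) (γ := γ) (c := c) (e := e) (n := n) hTC.1 he E []
    hE hW0 hW1
  refine ⟨mk (c (e ps) ∘ Sum.inr) W₀ W₁, ?_, h⟩
  rw [rho] at hR0 hR1
  rw [rho0]
  exact ⟨hr0, hr1, hR0, hR1⟩

end Pool.Agent.K1H92.PL
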